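import Pool.Agent.H242.GX.Stm

/-!
# Local inverse functions with a periodic parameter (GX-LOC)
-/

set_option autoImplicit false

open Set Filter Topology
open scoped ContDiff
open Pool.Agent.H242.GX

namespace Pool.Agent.H729.GX

/-- the one-sided barrier -/
noncomputable def k1 (b β : ℝ) : ℝ := expNegInvGlue (β - b) * (2 * b - β)⁻¹

lemma k1_zero {b β : ℝ} (h : β ≤ b) : k1 b β = 0 := by
  unfold k1
  rw [expNegInvGlue.zero_of_nonpos (by linarith), zero_mul]

lemma k1_der {b β : ℝ} (h : β < 2 * b) : ∃ d, 0 ≤ d ∧ HasDerivAt (k1 b) d β := by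
  have h0 : 0 < 2 * b - β := by linarith
  have hG : Differentiable ℝ expNegInvGlue :=
    (expNegInvGlue.contDiff (n := 1)).differentiable (by simp)
  have h1 : HasDerivAt (fun β => expNegInvGlue (β - b)) (deriv expNegInvGlue (β - b)) β :=
    (hG (β - b)).hasDerivAt.comp_sub_const β b
  have h2 : HasDerivAt (fun β : ℝ => (2 * b - β)⁻¹) (1 / (2 * b - β) ^ 2) β := by
    have h3 : HasDerivAt (fun β : ℝ => 2 * b - β) (-1) β := by
      have := (hasDerivAt_id β).const_sub (2 * b)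
      simpa using this
    have h4 : HasDerivAt (fun β : ℝ => (2 * b - β)⁻¹) (-(-1) / (2 * b - β) ^ 2) β :=
      h3.inv h0.ne'
    rw [neg_neg] at h4
    exact h4
  refine ⟨_, ?_, h1.mul h2⟩
  exact add_nonneg (mul_nonneg expNegInvGlue.monotone.deriv_nonneg (inv_nonneg.2 h0.le))
    (mul_nonneg (expNegInvGlue.nonneg _) (by positivity))

lemma k1_smooth (b : ℝ) : ContDiffOn ℝ ∞ (k1 b) (Iio (2 * b)) := by
  unfold k1
  refine ContDiffOn.mul ?_ ?_
  · exact ((expNegInvGlue.contDiff (n := ⊤)).comp (contDiff_id.sub contDiff_const)).contDiffOn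
  · refine ContDiffOn.inv (contDiff_const.sub contDiff_id).contDiffOn ?_
    intro x hx
    have : x < 2 * b := hx
    exact (sub_pos.2 this).ne'

/-- the barrier is unbounded -/
lemma k1_big {b : ℝ} (hb : 0 < b) (T : ℝ) : ∃ β, 0 < β ∧ β < 2 * b ∧ T ≤ k1 b β := by
  have hG : 0 < expNegInvGlue (b / 2) := expNegInvGlue.pos_of_pos (by linarith)
  obtain ⟨η, hη⟩ : ∃ η, η = min (b / 2) (expNegInvGlue (b / 2) / (|T| + 1)) := ⟨_, rfl⟩
  have hη0 : 0 < η := by rw [hη]; positivity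
  have hη1 : η ≤ b / 2 := by rw [hη]; exact min_le_left _ _
  have hη2 : η ≤ expNegInvGlue (b / 2) / (|T| + 1) := by rw [hη]; exact min_le_right _ _
  refine ⟨2 * b - η, by linarith, by linarith, ?_⟩
  unfold k1
  have h1 : expNegInvGlue (b / 2) ≤ expNegInvGlue (2 * b - η - b) :=
    expNegInvGlue.monotone (by linarith)
  have h2 : 2 * b - (2 * b - η) = η := by ring
  rw [h2, ← div_eq_mul_inv, le_div_iff₀ hη0]
  have h3 : T ≤ |T| + 1 := by linarith [le_abs_self T]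
  calc T * η ≤ (|T| + 1) * η := mul_le_mul_of_nonneg_right h3 hη0.le
    _ ≤ (|T| + 1) * (expNegInvGlue (b / 2) / (|T| + 1)) :=
        mul_le_mul_of_nonneg_left hη2 (by positivity)
    _ = expNegInvGlue (b / 2) := by field_simp
    _ ≤ _ := h1

theorem gx_LOC (hINV : S_INV) : S_LOC := by
  intro f hf hper h0 hpos
  have hfd : Differentiable ℝ f := hf.differentiable (by simp)
  have hpart : ∀ θ t, HasDerivAt (fun t => f (θ, t)) (fderiv ℝ f (θ, t) (0, 1)) t := by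
    intro θ t
    have h1 : HasDerivAt (fun t : ℝ => (θ, t)) ((0 : ℝ), (1 : ℝ)) t :=
      (hasDerivAt_const t θ).prodMk (hasDerivAt_id t)
    exact (hfd (θ, t)).hasFDerivAt.comp_hasDerivAt t h1
  have hcont : Continuous fun x : ℝ × ℝ => fderiv ℝ f x (0, 1) :=
    (hf.continuous_fderiv (by simp)).clm_apply continuous_const
  have hD : ∀ θ t, deriv (fun t => f (θ, t)) t = fderiv ℝ f (θ, t) (0, 1) :=
    fun θ t => (hpart θ t).deriv
  have hpi : (0 : ℝ) < 2 * Real.pi := by positivity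
  have hred : ∀ θ : ℝ, ∃ θ' ∈ Icc (0 : ℝ) (2 * Real.pi), ∀ t, f (θ, t) = f (θ', t) := by
    intro θ
    have hp : Function.Periodic (fun θ => fun t => f (θ, t)) (2 * Real.pi) := by
      intro θ
      funext t
      exact hper θ t
    obtain ⟨θ', hθ', h1⟩ := hp.exists_mem_Ico₀ hpi θ
    exact ⟨θ', Ico_subset_Icc_self hθ', fun t => congrFun h1 t⟩
  have hredD : ∀ θ : ℝ, ∃ θ' ∈ Icc (0 : ℝ) (2 * Real.pi), (∀ t, f (θ, t) = f (θ', t)) ∧
      ∀ t, fderiv ℝ f (θ, t) (0, 1) = fderiv ℝ f (θ', t) (0, 1) := by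
    intro θ
    obtain ⟨θ', hθ', h1⟩ := hred θ
    refine ⟨θ', hθ', h1, fun t => ?_⟩
    rw [← hD, ← hD]
    congr 1
    funext t
    exact h1 t
  -- the radius
  obtain ⟨a, ha, hDpos⟩ : ∃ a : ℝ, 0 < a ∧ ∀ θ t, |t| < a → 0 < fderiv ℝ f (θ, t) (0, 1) := by
    have h1 : ∀ᶠ t in 𝓝 (0 : ℝ), ∀ θ ∈ Icc (0 : ℝ) (2 * Real.pi),
        0 < fderiv ℝ f (θ, t) (0, 1) := by
      refine isCompact_Icc.eventually_forall_of_forall_eventually
        (P := fun t θ => 0 < fderiv ℝ f (θ, t) (0, 1)) ?_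
      intro θ _
      have h2 : Continuous fun z : ℝ × ℝ => fderiv ℝ f (z.2, z.1) (0, 1) :=
        hcont.comp (continuous_snd.prodMk continuous_fst)
      have h3 : 0 < fderiv ℝ f (θ, 0) (0, 1) := by
        rw [← hD]
        exact hpos θ
      exact h2.continuousAt.eventually (lt_mem_nhds h3)
    obtain ⟨a, ha, h2⟩ := Metric.eventually_nhds_iff.1 h1
    refine ⟨a, ha, fun θ t ht => ?_⟩
    obtain ⟨θ', hθ', -, h3⟩ := hredD θ
    rw [h3]
    refine h2 ?_ θ' hθ'
    rw [Real.dist_eq, sub_zero]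
    exact ht
  obtain ⟨b, hb⟩ : ∃ b, b = a / 2 := ⟨_, rfl⟩
  have hb0 : 0 < b := by rw [hb]; linarith
  have hab : a = 2 * b := by rw [hb]; ring
  -- monotonicity of `f`
  have hfmono : ∀ θ, StrictMonoOn (fun t => f (θ, t)) (Ioo (-a) a) := by
    intro θ
    refine strictMonoOn_of_deriv_pos (convex_Ioo _ _) ?_ ?_
    · exact (hf.continuous.comp (continuous_const.prodMk continuous_id)).continuousOn
    · intro t ht
      rw [interior_Ioo] at ht
      rw [hD]
      exact hDpos θ t (abs_lt.2 ht)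
  have h0mem : (0 : ℝ) ∈ Ioo (-a) a := ⟨by linarith, ha⟩
  have hfnn : ∀ θ t, 0 ≤ t → t < a → 0 ≤ f (θ, t) := by
    intro θ t h1 h2
    rcases eq_or_lt_of_le h1 with h3 | h3
    · rw [← h3, h0]
    · have := hfmono θ h0mem (⟨by linarith, h2⟩ : t ∈ Ioo (-a) a) h3
      simp only [h0] at this
      exact this.le
  have hfnp : ∀ θ t, t ≤ 0 → -a < t → f (θ, t) ≤ 0 := by
    intro θ t h1 h2
    rcases eq_or_lt_of_le h1 with h3 | h3
    · rw [h3, h0]
    · have := hfmono θ (⟨h2, by linarith⟩ : t ∈ Ioo (-a) a) h0mem h3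
      simp only [h0] at this
      exact this.le
  -- the modified function
  obtain ⟨F, hF⟩ : ∃ F : ℝ × ℝ → ℝ, F = fun x => f x + (k1 b x.2 - k1 b (-x.2)) := ⟨_, rfl⟩
  have hFder : ∀ θ β : ℝ, |β| < a → ∃ d, 0 < d ∧ HasDerivAt (fun t => F (θ, t)) d β := by
    intro θ β hβ
    obtain ⟨hβ1, hβ2⟩ := abs_lt.1 hβ
    obtain ⟨d1, hd1, h1⟩ := k1_der (b := b) (β := β) (by linarith)
    obtain ⟨d2, hd2, h2⟩ := k1_der (b := b) (β := -β) (by linarith)
    have h3 : HasDerivAt (fun t : ℝ => k1 b (-t)) (d2 * (-1)) β :=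
      h2.comp β (hasDerivAt_neg β)
    have h4 := (hpart θ β).add (h1.sub h3)
    refine ⟨fderiv ℝ f (θ, β) (0, 1) + (d1 - d2 * -1), ?_, ?_⟩
    · have := hDpos θ β hβ
      linarith
    · rw [hF]
      exact h4
  have hFmono : ∀ θ, StrictMonoOn (fun t => F (θ, t)) (Ioo (-a) a) := by
    intro θ
    refine strictMonoOn_of_deriv_pos (convex_Ioo _ _) ?_ ?_
    · intro t ht
      obtain ⟨d, -, h1⟩ := hFder θ t (abs_lt.2 ht)
      exact h1.continuousAt.continuousWithinAt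
    · intro t ht
      rw [interior_Ioo] at ht
      obtain ⟨d, hd, h1⟩ := hFder θ t (abs_lt.2 ht)
      rw [h1.deriv]
      exact hd
  have hFf : ∀ θ t, |t| ≤ b → F (θ, t) = f (θ, t) := by
    intro θ t ht
    obtain ⟨h1, h2⟩ := abs_le.1 ht
    rw [hF]
    show f (θ, t) + (k1 b t - k1 b (-t)) = f (θ, t)
    rw [k1_zero h2, k1_zero (by linarith), sub_zero, add_zero]
  have hFper : ∀ θ t, F (θ + 2 * Real.pi, t) = F (θ, t) := by
    intro θ t
    rw [hF]
    show f (θ + 2 * Real.pi, t) + _ = f (θ, t) + _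
    rw [hper]
  have hF1 : ContDiffOn ℝ ∞ F {x | |x.2| < a} := by
    rw [hF]
    refine hf.contDiffOn.add (ContDiffOn.sub ?_ ?_)
    · refine (k1_smooth b).comp contDiff_snd.contDiffOn ?_
      intro x hx
      have h1 : |x.2| < a := hx
      show x.2 < 2 * b
      linarith [(abs_lt.1 h1).2]
    · refine (k1_smooth b).comp (contDiff_snd.neg).contDiffOn ?_
      intro x hx
      have h1 : |x.2| < a := hx
      show -x.2 < 2 * b
      linarith [(abs_lt.1 h1).1]
  have hF2 : ∀ θ β : ℝ, |β| < a → 0 < deriv (fun b => F (θ, b)) β := by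
    intro θ β hβ
    obtain ⟨d, hd, h1⟩ := hFder θ β hβ
    rw [h1.deriv]
    exact hd
  have hF3 : ∀ θ T : ℝ, ∃ β₁ β₂ : ℝ, |β₁| < a ∧ |β₂| < a ∧ F (θ, β₁) ≤ T ∧ T ≤ F (θ, β₂) := by
    intro θ T
    obtain ⟨β₁, h1, h2, h3⟩ := k1_big hb0 (-T)
    obtain ⟨β₂, h4, h5, h6⟩ := k1_big hb0 T
    refine ⟨-β₁, β₂, ?_, ?_, ?_, ?_⟩
    · rw [abs_neg, abs_of_pos h1, hab]
      exact h2
    · rw [abs_of_pos h4, hab]
      exact h5
    · rw [hF]
      show f (θ, -β₁) + (k1 b (-β₁) - k1 b (- -β₁)) ≤ T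
      rw [neg_neg, k1_zero (β := -β₁) (by linarith)]
      have := hfnp θ (-β₁) (by linarith) (by linarith)
      linarith
    · rw [hF]
      show T ≤ f (θ, β₂) + (k1 b β₂ - k1 b (-β₂))
      rw [k1_zero (β := -β₂) (by linarith)]
      have := hfnn θ β₂ h4.le (by linarith)
      linarith
  obtain ⟨g, hg1, hg2, hg3, hg4⟩ := hINV a F ha hF1 hF2 hF3
  -- the radius of the values
  have hbmem : b ∈ Ioo (-a) a := ⟨by linarith, by linarith⟩
  have hbmem' : -b ∈ Ioo (-a) a := ⟨by linarith, by linarith⟩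
  have hmin : ∀ (β : ℝ) (σ : ℝ), (∀ θ, 0 < σ * f (θ, β)) → ∃ ε : ℝ, 0 < ε ∧
      ∀ θ, ε ≤ σ * f (θ, β) := by
    intro β σ hσ
    have hc : Continuous fun θ : ℝ => σ * f (θ, β) :=
      continuous_const.mul (hf.continuous.comp (continuous_id.prodMk continuous_const))
    obtain ⟨θ₀, hθ₀, h1⟩ := isCompact_Icc.exists_isMinOn
      (nonempty_Icc.2 hpi.le) hc.continuousOn
    refine ⟨σ * f (θ₀, β), hσ θ₀, fun θ => ?_⟩
    obtain ⟨θ', hθ', h2⟩ := hred θ
    rw [h2]
    exact h1 hθ'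
  obtain ⟨ε₁, hε₁, h1⟩ := hmin b 1 (fun θ => by
    rw [one_mul]
    have := hfmono θ h0mem hbmem hb0
    simp only [h0] at this
    exact this)
  obtain ⟨ε₂, hε₂, h2⟩ := hmin (-b) (-1) (fun θ => by
    have := hfmono θ hbmem' h0mem (by linarith)
    simp only [h0] at this
    linarith)
  obtain ⟨ε, hε⟩ : ∃ ε, ε = min ε₁ ε₂ := ⟨_, rfl⟩
  have hε0 : 0 < ε := by rw [hε]; exact lt_min hε₁ hε₂
  have hεa : ∀ θ, ε ≤ f (θ, b) := by
    intro θ
    have h3 := h1 θ
    rw [one_mul] at h3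
    exact (hε ▸ min_le_left _ _ : ε ≤ ε₁).trans h3
  have hεb : ∀ θ, f (θ, -b) ≤ -ε := by
    intro θ
    have h3 := h2 θ
    have h4 : ε ≤ ε₂ := hε ▸ min_le_right _ _
    linarith
  have hgb : ∀ θ s, |s| < ε → |g (θ, s)| < b := by
    intro θ s hs
    obtain ⟨hs1, hs2⟩ := abs_lt.1 hs
    have hgm : g (θ, s) ∈ Ioo (-a) a := abs_lt.1 (hg2 _)
    rw [abs_lt]
    constructor
    · rw [← (hFmono θ).lt_iff_lt hbmem' hgm]
      show F (θ, -b) < F (θ, g (θ, s))
      rw [hg3, hFf θ (-b) (by rw [abs_neg, abs_of_pos hb0])]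
      linarith [hεb θ]
    · rw [← (hFmono θ).lt_iff_lt hgm hbmem]
      show F (θ, g (θ, s)) < F (θ, b)
      rw [hg3, hFf θ b (by rw [abs_of_pos hb0])]
      linarith [hεa θ]
  have hgf : ∀ θ s, |s| < ε → f (θ, g (θ, s)) = s := by
    intro θ s hs
    rw [← hFf θ _ (hgb θ s hs).le, hg3]
  have hg0 : ∀ θ, g (θ, 0) = 0 := by
    intro θ
    have h3 := hg4 θ 0 (by rw [abs_zero]; exact ha)
    rw [hFf θ 0 (by rw [abs_zero]; exact hb0.le), h0] at h3
    exact h3
  refine ⟨ε, b, g, hε0, hb0, hg1.contDiffOn, ?_, fun θ s hs => ⟨hgb θ s hs, hgf θ s hs⟩, ?_, hg0,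
    ?_, ?_⟩
  · intro θ s
    have h3 := hg4 θ (g (θ + 2 * Real.pi, s)) (hg2 _)
    rw [← hFper, hg3] at h3
    exact h3.symm
  · intro θ t s ht hs hts
    have h3 := hg4 θ t (by linarith)
    rw [hFf θ t ht.le, hts] at h3
    exact h3.symm
  · intro θ s hs hsε
    have hs' : |s| < ε := by rw [abs_of_pos hs]; exact hsε
    by_contra hcon
    push Not at hcon
    have h3 := hfnp θ (g (θ, s)) hcon (abs_lt.1 (hg2 _)).1
    rw [hgf θ s hs'] at h3
    linarith
  · intro θ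
    have hgd : DifferentiableAt ℝ (fun s => g (θ, s)) 0 := by
      have h3 : Differentiable ℝ g := hg1.differentiable (by simp)
      have h4 : Differentiable ℝ (fun s : ℝ => (θ, s)) :=
        (differentiable_const θ).prodMk differentiable_id
      exact (h3.comp h4) 0
    have h3 := hgd.hasDerivAt
    have h4 : HasDerivAt (fun t => f (θ, t)) (deriv (fun t => f (θ, t)) 0) (g (θ, 0)) := by
      rw [hg0, hD]
      exact hpart θ 0
    have h5 := h4.comp (0 : ℝ) h3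
    have h6 : ((fun t => f (θ, t)) ∘ fun s => g (θ, s)) =ᶠ[𝓝 0] id := by
      have h7 : ∀ᶠ s in 𝓝 (0 : ℝ), |s| < ε := by
        have h8 : ContinuousAt (fun s : ℝ => |s|) 0 := continuous_abs.continuousAt
        exact h8.eventually (gt_mem_nhds (by simpa using hε0))
      filter_upwards [h7] with s hs
      exact hgf θ s hs
    have h7 := (h5.congr_of_eventuallyEq h6.symm).unique (hasDerivAt_id (0 : ℝ))
    have h8 := hpos θ
    field_simp
    linarith
  
end Pool.Agent.H729.GX
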